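import Mathlib
import Pool.Agent.Helper93.Geo.TieCrit

/-!
Geodesic growth with respect to a set between the sphere and the ball of radius `k`:
basic comparison of words.
-/

namespace Pool.Agent.Helper90.Ball

open Pool.Agent.Helper90.Spinal Pool.Agent.Helper93.Geo Filter Topology

variable {G : Type*} [Group G]

/-- `T` lies between the sphere and the ball of radius `k` of `S`, and generates the same monoid. -/
structure Between (S T : Set G) (k : ℕ) : Prop where
  ball : ∀ t ∈ T, ∃ l : List G, (∀ s ∈ l, s ∈ S) ∧ l.length ≤ k ∧ l.prod = t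
  sphere : ∀ l : List G, IsGeodesic S l → l.length = k → l.prod ∈ T
  gen : ∀ s ∈ S, ∃ l : List G, (∀ t ∈ l, t ∈ T) ∧ l.prod = s

variable {S T : Set G} {k : ℕ}

theorem exists_geo (l : List G) (hl : ∀ s ∈ l, s ∈ S) :
    ∃ l' : List G, IsGeodesic S l' ∧ l'.prod = l.prod ∧ l'.length ≤ l.length := by
  classical
  have hex : ∃ m, ∃ l' : List G, (∀ s ∈ l', s ∈ S) ∧ l'.prod = l.prod ∧ l'.length = m :=
    ⟨_, l, hl, rfl, rfl⟩
  obtain ⟨l', h1, h2, h3⟩ := Nat.find_spec hex
  refine ⟨l', ⟨h1, fun v hv he => ?_⟩, h2, ?_⟩
  · rw [h3]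
    exact Nat.find_min' hex ⟨v, hv, he.trans h2, rfl⟩
  · rw [h3]
    exact Nat.find_min' hex ⟨l, hl, rfl, rfl⟩

theorem Between.toS (h : Between S T k) (τ : List G) (hτ : ∀ t ∈ τ, t ∈ T) :
    ∃ l : List G, (∀ s ∈ l, s ∈ S) ∧ l.length ≤ k * τ.length ∧ l.prod = τ.prod := by
  induction τ with
  | nil => exact ⟨[], by simp, by simp, rfl⟩
  | cons t τ ih =>
    obtain ⟨l, h1, h2, h3⟩ := ih (fun t ht => hτ t (by simp [ht]))
    obtain ⟨u, h4, h5, h6⟩ := h.ball t (hτ t (by simp))
    refine ⟨u ++ l, ?_, ?_, ?_⟩
    · intro s hs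
      rcases List.mem_append.1 hs with hs | hs
      · exact h4 s hs
      · exact h1 s hs
    · rw [List.length_append, List.length_cons, Nat.mul_succ]
      omega
    · rw [List.prod_append, h3, h6, List.prod_cons]

theorem Between.exists_bound (h : Between S T k) (hS : S.Finite) :
    ∃ C : ℕ, ∀ l : List G, (∀ s ∈ l, s ∈ S) →
      ∃ τ : List G, (∀ t ∈ τ, t ∈ T) ∧ τ.length ≤ C * l.length ∧ τ.prod = l.prod := by
  classical
  choose! φ h1 h2 using h.gen
  refine ⟨hS.toFinset.sup (fun s => (φ s).length), fun l hl => ?_⟩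
  induction l with
  | nil => exact ⟨[], by simp, by simp, rfl⟩
  | cons s l ih =>
    obtain ⟨τ, h3, h4, h5⟩ := ih (fun t ht => hl t (by simp [ht]))
    have hs : s ∈ S := hl s (by simp)
    have h6 : (φ s).length ≤ hS.toFinset.sup (fun s => (φ s).length) :=
      Finset.le_sup (f := fun s => (φ s).length) (by simpa using hs)
    refine ⟨φ s ++ τ, ?_, ?_, ?_⟩
    · intro t ht
      rcases List.mem_append.1 ht with ht | ht
      · exact h1 s hs t ht
      · exact h3 t ht
    · rw [List.length_append, List.length_cons, Nat.mul_succ]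
      omega
    · rw [List.prod_append, h2 s hs, h5, List.prod_cons]

theorem Between.toT (h : Between S T k) (hS : S.Finite) (hk : 0 < k) :
    ∃ C : ℕ, ∀ l : List G, (∀ s ∈ l, s ∈ S) →
      ∃ τ : List G, (∀ t ∈ τ, t ∈ T) ∧ τ.prod = l.prod ∧ k * τ.length ≤ l.length + C := by
  obtain ⟨C, hC⟩ := h.exists_bound hS
  have key : ∀ m : ℕ, ∀ l : List G, IsGeodesic S l → l.length = m →
      ∃ τ : List G, (∀ t ∈ τ, t ∈ T) ∧ τ.prod = l.prod ∧
        k * τ.length ≤ l.length + k * (C * k) := by
    intro m
    induction m using Nat.strong_induction_on with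
    | _ m ih =>
      intro l hl hm
      by_cases hlt : m < k
      · obtain ⟨τ, h1, h2, h3⟩ := hC l hl.1
        refine ⟨τ, h1, h3, ?_⟩
        have h4 : τ.length ≤ C * k := h2.trans (Nat.mul_le_mul_left _ (by omega))
        have := Nat.mul_le_mul_left k h4
        omega
      · have hg1 : IsGeodesic S (l.take k) := by
          apply IsGeodesic.mid (u := []) (x := l.drop k)
          rw [List.nil_append, List.take_append_drop]
          exact hl
        have hg2 : IsGeodesic S (l.drop k) := by
          apply IsGeodesic.mid (u := l.take k) (x := [])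
          rw [List.append_nil, List.take_append_drop]
          exact hl
        have h1 : (l.take k).prod ∈ T := h.sphere _ hg1 (by rw [List.length_take]; omega)
        obtain ⟨τ, h2, h3, h4⟩ := ih (m - k) (by omega) (l.drop k) hg2
          (by rw [List.length_drop]; omega)
        refine ⟨(l.take k).prod :: τ, ?_, ?_, ?_⟩
        · intro t ht
          rcases List.mem_cons.1 ht with rfl | ht
          · exact h1
          · exact h2 t ht
        · rw [List.prod_cons, h3, ← List.prod_append, List.take_append_drop]
        · rw [List.length_drop] at h4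
          rw [List.length_cons, Nat.mul_succ]
          omega
  refine ⟨k * (C * k), fun l hl => ?_⟩
  obtain ⟨l', h1, h2, h3⟩ := exists_geo l hl
  obtain ⟨τ, h4, h5, h6⟩ := key _ l' h1 rfl
  exact ⟨τ, h4, h5.trans h2, by omega⟩

theorem geo_finite (hS : S.Finite) (n : ℕ) :
    {l : List G | IsGeodesic S l ∧ l.length ≤ n}.Finite :=
  (finite_words hS n).subset (fun _ hl => ⟨hl.1.1, hl.2⟩)

theorem Between.finite (h : Between S T k) (hS : S.Finite) : T.Finite := by
  refine ((finite_words hS k).image List.prod).subset ?_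
  intro t ht
  obtain ⟨l, h1, h2, h3⟩ := h.ball t ht
  exact ⟨l, ⟨h1, h2⟩, h3⟩

theorem geodesicGrowth_mono (hS : S.Finite) {m n : ℕ} (hmn : m ≤ n) :
    geodesicGrowth S m ≤ geodesicGrowth S n := by
  rw [geodesicGrowth, geodesicGrowth]
  exact Set.ncard_le_ncard (fun l hl => ⟨hl.1, hl.2.trans hmn⟩) (geo_finite hS n)

/-! ### lists of blocks -/

/-- blocks of length `k` are determined by their concatenation -/
theorem flatten_inj (hk : 0 < k) : ∀ L L' : List (List G), (∀ u ∈ L, u.length = k) →
    (∀ u ∈ L', u.length = k) → L.flatten = L'.flatten → L = L' := by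
  intro L
  induction L with
  | nil =>
    intro L' _ h2 h3
    cases L' with
    | nil => rfl
    | cons u L' =>
      have := congrArg List.length h3
      rw [List.flatten_cons, List.length_append, h2 u (by simp)] at this
      simp at this
      omega
  | cons u L ih =>
    intro L' h1 h2 h3
    cases L' with
    | nil =>
      have := congrArg List.length h3
      rw [List.flatten_cons, List.length_append, h1 u (by simp)] at this
      simp at this
      omega
    | cons u' L' =>
      rw [List.flatten_cons, List.flatten_cons] at h3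
      have h4 := List.append_inj h3 (by rw [h1 u (by simp), h2 u' (by simp)])
      rw [h4.1, ih L' (fun u hu => h1 u (by simp [hu])) (fun u hu => h2 u (by simp [hu])) h4.2]

/-! ### good words over `T` -/

/-- words over `T` whose length over `S` is exactly `k` times their length -/
def Good (S T : Set G) (k : ℕ) (π : List G) : Prop :=
  (∀ t ∈ π, t ∈ T) ∧ ∀ l : List G, (∀ s ∈ l, s ∈ S) → l.prod = π.prod → k * π.length ≤ l.length

theorem good_card (h : Between S T k) (hS : S.Finite) (hk : 0 < k) (n : ℕ) :
    {π : List G | Good S T k π ∧ π.length ≤ n}.ncard ≤ geodesicGrowth S (k * n) := by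
  classical
  choose! φ h1 h2 h3 using h.ball
  have hlen : ∀ π : List G, (∀ t ∈ π, t ∈ T) → (π.map φ).flatten.length ≤ k * π.length := by
    intro π
    induction π with
    | nil => intro _; simp
    | cons t π ih =>
      intro hπ
      have := ih (fun t ht => hπ t (by simp [ht]))
      have h4 := h2 t (hπ t (by simp))
      rw [List.map_cons, List.flatten_cons, List.length_append, List.length_cons, Nat.mul_succ]
      omega
  have hprod : ∀ π : List G, (∀ t ∈ π, t ∈ T) → (π.map φ).flatten.prod = π.prod := by
    intro π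
    induction π with
    | nil => intro _; simp
    | cons t π ih =>
      intro hπ
      have := ih (fun t ht => hπ t (by simp [ht]))
      rw [List.map_cons, List.flatten_cons, List.prod_append, this, h3 t (hπ t (by simp)),
        List.prod_cons]
  have hmem : ∀ π : List G, (∀ t ∈ π, t ∈ T) → ∀ s ∈ (π.map φ).flatten, s ∈ S := by
    intro π hπ s hs
    simp only [List.mem_flatten, List.mem_map] at hs
    obtain ⟨_, ⟨t, ht, rfl⟩, hs⟩ := hs
    exact h1 t (hπ t ht) s hs
  have hk' : ∀ π : List G, (∀ t ∈ π, t ∈ T) → k * π.length ≤ (π.map φ).flatten.length →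
      ∀ t ∈ π, (φ t).length = k := by
    intro π
    induction π with
    | nil => intro _ _ t ht; simp at ht
    | cons t π ih =>
      intro hπ hle
      have h5 := hlen π (fun t ht => hπ t (by simp [ht]))
      have h4 := h2 t (hπ t (by simp))
      rw [List.map_cons, List.flatten_cons, List.length_append, List.length_cons,
        Nat.mul_succ] at hle
      intro t' ht'
      rcases List.mem_cons.1 ht' with rfl | ht'
      · omega
      · exact ih (fun t ht => hπ t (by simp [ht])) (by omega) t' ht'
  have hg : ∀ π : List G, Good S T k π → IsGeodesic S (π.map φ).flatten ∧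
      (π.map φ).flatten.length = k * π.length := by
    intro π hπ
    have h5 := hlen π hπ.1
    have h6 := hπ.2 _ (hmem π hπ.1) (hprod π hπ.1)
    refine ⟨⟨hmem π hπ.1, fun l hl he => ?_⟩, by omega⟩
    have := hπ.2 l hl (he.trans (hprod π hπ.1))
    omega
  rw [geodesicGrowth]
  refine Set.ncard_le_ncard_of_injOn (fun π => (π.map φ).flatten) ?_ ?_ (geo_finite hS _)
  · rintro π ⟨h5, h6⟩
    refine ⟨(hg π h5).1, ?_⟩
    rw [(hg π h5).2]
    exact Nat.mul_le_mul_left _ h6
  · rintro π ⟨h5, h6⟩ π' ⟨h7, h8⟩ he
    have e1 : π.map φ = π'.map φ := by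
      apply flatten_inj hk _ _ _ _ he
      · intro u hu
        obtain ⟨t, ht, rfl⟩ := List.mem_map.1 hu
        exact hk' π h5.1 (hg π h5).2.ge t ht
      · intro u hu
        obtain ⟨t, ht, rfl⟩ := List.mem_map.1 hu
        exact hk' π' h7.1 (hg π' h7).2.ge t ht
    have e2 : ∀ π : List G, (∀ t ∈ π, t ∈ T) → (π.map φ).map List.prod = π := by
      intro π hπ
      rw [List.map_map]
      conv_rhs => rw [← List.map_id π]
      refine List.map_congr_left fun t ht => ?_
      exact h3 t (hπ t ht)
    rw [← e2 π h5.1, e1, e2 π' h7.1]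

theorem good_nil : Good S T k ([] : List G) := ⟨by simp, by simp⟩

theorem atoms (D : ℕ) : ∀ τ : List G, (∀ t ∈ τ, t ∈ T) →
    (∀ l : List G, (∀ s ∈ l, s ∈ S) → l.prod = τ.prod → k * τ.length ≤ l.length + D) →
    ∃ L : List (List G), L.length = 2 * D + 1 ∧ L.flatten = τ ∧
      ∀ π ∈ L, π.length ≤ τ.length ∧ (Good S T k π ∨ ∃ t ∈ T, π = [t]) := by
  classical
  induction D with
  | zero =>
    intro τ h1 h2
    refine ⟨[τ], rfl, by simp, ?_⟩
    intro π hπ
    rw [List.mem_singleton] at hπ
    rw [hπ]
    exact ⟨le_rfl, Or.inl ⟨h1, by simpa using h2⟩⟩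
  | succ D ih =>
    intro τ h1 h2
    by_cases hg : Good S T k τ
    · refine ⟨τ :: List.replicate (2 * (D + 1)) [], ?_, ?_, ?_⟩
      · simp
      · simp
      · intro π hπ
        rcases List.mem_cons.1 hπ with rfl | hπ
        · exact ⟨le_rfl, Or.inl hg⟩
        · rw [List.eq_of_mem_replicate hπ]
          exact ⟨by simp, Or.inl good_nil⟩
    · have hex : ∃ i, ¬ Good S T k (τ.take i) := ⟨τ.length, by rwa [List.take_length]⟩
      set i := Nat.find hex with hi
      have hspec : ¬ Good S T k (τ.take i) := Nat.find_spec hex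
      have hpos : 0 < i := by
        rcases Nat.eq_zero_or_pos i with h0 | h0
        · rw [h0, List.take_zero] at hspec
          exact absurd good_nil hspec
        · exact h0
      have hle : i ≤ τ.length := Nat.find_min' hex (by rwa [List.take_length])
      have hprev : Good S T k (τ.take (i - 1)) := by
        by_contra hn
        exact Nat.find_min hex (m := i - 1) (by omega) hn
      obtain ⟨j, hj⟩ : ∃ j, i = j + 1 := ⟨i - 1, by omega⟩
      have hjl : j < τ.length := by omega
      have hsplit : τ = τ.take j ++ ([τ[j]] ++ τ.drop (j + 1)) := by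
        conv_lhs => rw [← List.take_append_drop j τ]
        rw [List.drop_eq_getElem_cons hjl]
        rfl
      have htake : τ.take i = τ.take j ++ [τ[j]] := by
        rw [hj, List.take_add_one, List.getElem?_eq_getElem hjl]
        rfl
      have hbad : ∃ l1 : List G, (∀ s ∈ l1, s ∈ S) ∧ l1.prod = (τ.take i).prod ∧
          l1.length < k * i := by
        by_contra hn
        push Not at hn
        apply hspec
        refine ⟨fun t ht => h1 t (List.mem_of_mem_take ht), fun l hl he => ?_⟩
        rw [List.length_take, min_eq_left hle]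
        exact hn l hl he
      obtain ⟨l1, hl1, hl2, hl3⟩ := hbad
      obtain ⟨L, hL1, hL2, hL3⟩ := ih (τ.drop i)
        (fun t ht => h1 t (List.mem_of_mem_drop ht)) (by
          intro l hl he
          have h3 := h2 (l1 ++ l) (by
            intro s hs
            rcases List.mem_append.1 hs with hs | hs
            · exact hl1 s hs
            · exact hl s hs) (by
            rw [List.prod_append, hl2, he, ← List.prod_append, List.take_append_drop])
          rw [List.length_append] at h3
          have h4 : k * τ.length = k * i + k * (τ.length - i) := by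
            rw [← Nat.mul_add]
            congr 1
            omega
          rw [List.length_drop]
          omega)
      refine ⟨τ.take j :: [τ[j]] :: L, ?_, ?_, ?_⟩
      · simp only [List.length_cons, hL1]
        ring
      · rw [List.flatten_cons, List.flatten_cons, hL2]
        conv_rhs => rw [hsplit]
        rw [hj]
      · intro π hπ
        rcases List.mem_cons.1 hπ with rfl | hπ
        · refine ⟨by rw [List.length_take]; omega, Or.inl ?_⟩
          have : j = i - 1 := by omega
          rw [this]
          exact hprev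
        · rcases List.mem_cons.1 hπ with rfl | hπ
          · refine ⟨by simp; omega, Or.inr ⟨_, h1 _ (List.getElem_mem hjl), rfl⟩⟩
          · obtain ⟨h5, h6⟩ := hL3 π hπ
            refine ⟨h5.trans ?_, h6⟩
            rw [List.length_drop]
            omega

/-- concatenations of `m` words of `Q` -/
def cat (Q : Set (List G)) : ℕ → Set (List G)
  | 0 => {[]}
  | m + 1 => Set.image2 (fun u v => u ++ v) Q (cat Q m)

theorem cat_finite {Q : Set (List G)} (hQ : Q.Finite) (m : ℕ) : (cat Q m).Finite := by
  induction m with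
  | zero => exact Set.finite_singleton _
  | succ m ih => exact hQ.image2 _ ih

theorem cat_ncard {Q : Set (List G)} (hQ : Q.Finite) (m : ℕ) : (cat Q m).ncard ≤ Q.ncard ^ m := by
  induction m with
  | zero => simp [cat]
  | succ m ih =>
    rw [pow_succ, mul_comm]
    exact (ncard_image2_le _ hQ (cat_finite hQ m)).trans (Nat.mul_le_mul_left _ ih)

theorem flatten_mem_cat {Q : Set (List G)} (L : List (List G)) (hL : ∀ u ∈ L, u ∈ Q) :
    L.flatten ∈ cat Q L.length := by
  induction L with
  | nil => simp [cat]
  | cons u L ih =>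
    rw [List.flatten_cons, List.length_cons]
    exact ⟨u, hL u (by simp), L.flatten, ih (fun u hu => hL u (by simp [hu])), rfl⟩

/-- the geodesic growth over `T` is bounded by that over `S` -/
theorem growth_T_le (h : Between S T k) (hS : S.Finite) (hk : 0 < k) :
    ∃ R : ℕ, ∀ n, geodesicGrowth T n ≤ (geodesicGrowth S (k * n) + T.ncard) ^ R := by
  obtain ⟨C, hC⟩ := h.toT hS hk
  refine ⟨2 * C + 1, fun n => ?_⟩
  set Q : Set (List G) := {π : List G | Good S T k π ∧ π.length ≤ n} ∪ (fun t => [t]) '' T with hQ
  have hTf := h.finite hS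
  have hQ1 : {π : List G | Good S T k π ∧ π.length ≤ n}.Finite :=
    (finite_words hTf n).subset (fun _ hl => ⟨hl.1.1, hl.2⟩)
  have hQf : Q.Finite := hQ1.union (hTf.image _)
  have hQc : Q.ncard ≤ geodesicGrowth S (k * n) + T.ncard :=
    (Set.ncard_union_le _ _).trans
      (Nat.add_le_add (good_card h hS hk n) (Set.ncard_image_le hTf))
  have hsub : {l : List G | IsGeodesic T l ∧ l.length ≤ n} ⊆ cat Q (2 * C + 1) := by
    rintro τ ⟨h1, h2⟩
    obtain ⟨L, hL1, hL2, hL3⟩ := atoms (S := S) (T := T) (k := k) C τ h1.1 (by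
      intro l hl he
      obtain ⟨τ', h3, h4, h5⟩ := hC l hl
      have h6 := h1.2 τ' h3 (h4.trans he)
      have := Nat.mul_le_mul_left k h6
      omega)
    rw [← hL2, ← hL1]
    apply flatten_mem_cat
    intro π hπ
    obtain ⟨h3, h4 | ⟨t, ht, rfl⟩⟩ := hL3 π hπ
    · exact Or.inl ⟨h4, h3.trans h2⟩
    · exact Or.inr ⟨t, ht, rfl⟩
  calc geodesicGrowth T n ≤ (cat Q (2 * C + 1)).ncard :=
        Set.ncard_le_ncard hsub (cat_finite hQf _)
    _ ≤ Q.ncard ^ (2 * C + 1) := cat_ncard hQf _
    _ ≤ _ := Nat.pow_le_pow_left hQc _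

end Pool.Agent.Helper90.Ball
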