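import Pool.Agent.Helper90.Ball.Skel

/-!
The geodesic growth of `S` and of a set between the sphere and the ball of radius `k` determine
each other.
-/

namespace Pool.Agent.Helper90.Ball

open Pool.Agent.Helper90.Spinal Pool.Agent.Helper93.Geo Filter Topology

variable {G : Type*} [Group G] {S T : Set G} {k : ℕ}

theorem geo_take {τ : List G} (h : IsGeodesic S τ) (i : ℕ) : IsGeodesic S (τ.take i) := by
  apply IsGeodesic.mid (u := []) (x := τ.drop i)
  rw [List.nil_append, List.take_append_drop]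
  exact h

theorem succ_le_growth (hT : T.Finite) {τ : List G} (h : IsGeodesic T τ) :
    τ.length + 1 ≤ geodesicGrowth T τ.length := by
  have h1 : (((Finset.range (τ.length + 1)) : Finset ℕ) : Set ℕ).ncard = τ.length + 1 := by
    rw [Set.ncard_coe_finset, Finset.card_range]
  rw [geodesicGrowth]
  conv_lhs => rw [← h1]
  refine Set.ncard_le_ncard_of_injOn (fun i => τ.take i) ?_ ?_ (geo_finite hT _)
  · intro i _
    exact ⟨geo_take h i, by rw [List.length_take]; exact min_le_right _ _⟩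
  · intro i hi j hj he
    simp only [Finset.coe_range, Set.mem_Iio] at hi hj
    have := congrArg List.length he
    simp only [List.length_take] at this
    omega

/-- The comparison of the two geodesic growth functions. -/
theorem main (h : Between S T k) (hS : S.Finite) (hk : 0 < k) :
    ∃ A : ℕ, 0 < A ∧ ∀ n, geodesicGrowth T n ≤ (A * geodesicGrowth S (k * n)) ^ A ∧
      geodesicGrowth S (k * n) ≤ (A * geodesicGrowth T n) ^ A := by
  have hTf := h.finite hS
  obtain ⟨R₁, h1⟩ := growth_T_le h hS hk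
  have hS1 : ∀ n, 1 ≤ geodesicGrowth S n := one_le_geodesicGrowth hS
  have hT1 : ∀ n, 1 ≤ geodesicGrowth T n := one_le_geodesicGrowth hTf
  -- second inequality
  have h2 : ∃ A₂ : ℕ, ∀ n, geodesicGrowth S (k * n) ≤ (A₂ * geodesicGrowth T n) ^ A₂ := by
    by_cases hc : ∀ n, ∃ τ : List G, IsGeodesic T τ ∧ τ.length = n
    · obtain ⟨C, R, h3⟩ := growth_S_le h hS hk
      refine ⟨C + R + 2, fun n => ?_⟩
      obtain ⟨τ, hτ, hl⟩ := hc n
      have h4 := succ_le_growth hTf hτ
      rw [hl] at h4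
      have h5 : 1 ≤ (C + R + 2) * geodesicGrowth T n := Nat.mul_pos (by omega) (hT1 n)
      calc geodesicGrowth S (k * n) ≤ _ := h3 n
        _ ≤ geodesicGrowth T n * ((C + R + 2) * ((C + R + 2) * geodesicGrowth T n) ^ R) := by
            apply Nat.mul_le_mul h4
            apply Nat.mul_le_mul (by omega)
            exact Nat.pow_le_pow_left (Nat.mul_le_mul_right _ (by omega)) _
        _ = ((C + R + 2) * geodesicGrowth T n) ^ (R + 1) := by rw [pow_succ]; ring
        _ ≤ _ := Nat.pow_le_pow_right h5 (by omega)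
    · push Not at hc
      obtain ⟨n₀, hn₀⟩ := hc
      have h3 : ∀ τ : List G, IsGeodesic T τ → τ.length ≤ n₀ := by
        intro τ hτ
        by_contra hlt
        exact hn₀ _ (geo_take hτ n₀) (by rw [List.length_take]; omega)
      obtain ⟨C, hC⟩ := h.toT hS hk
      have h4 : ∀ l : List G, IsGeodesic S l → l.length ≤ k * n₀ := by
        intro l hl
        obtain ⟨τ, h5, h6, -⟩ := hC l hl.1
        obtain ⟨τ', h7, h8, -⟩ := exists_geo τ h5
        obtain ⟨l', h9, h10, h11⟩ := h.toS τ' h7.1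
        have h12 := hl.2 l' h9 (by rw [h11, h8, h6])
        exact h12.trans (h10.trans (Nat.mul_le_mul_left _ (h3 τ' h7)))
      refine ⟨geodesicGrowth S (k * n₀) + 1, fun n => ?_⟩
      have h5 : geodesicGrowth S (k * n) ≤ geodesicGrowth S (k * n₀) := by
        rw [geodesicGrowth, geodesicGrowth]
        exact Set.ncard_le_ncard (fun l hl => ⟨hl.1, h4 l hl.1⟩) (geo_finite hS _)
      have h6 : 1 ≤ (geodesicGrowth S (k * n₀) + 1) * geodesicGrowth T n :=
        Nat.mul_pos (by omega) (hT1 n)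
      calc geodesicGrowth S (k * n) ≤ (geodesicGrowth S (k * n₀) + 1) * 1 := by omega
        _ ≤ (geodesicGrowth S (k * n₀) + 1) * geodesicGrowth T n := Nat.mul_le_mul_left _ (hT1 n)
        _ = ((geodesicGrowth S (k * n₀) + 1) * geodesicGrowth T n) ^ 1 := (pow_one _).symm
        _ ≤ _ := Nat.pow_le_pow_right h6 (by omega)
  obtain ⟨A₂, h2⟩ := h2
  refine ⟨A₂ + R₁ + T.ncard + 1, by omega, fun n => ⟨?_, ?_⟩⟩
  · have h5 : 1 ≤ (A₂ + R₁ + T.ncard + 1) * geodesicGrowth S (k * n) :=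
      Nat.mul_pos (by omega) (hS1 _)
    calc geodesicGrowth T n ≤ _ := h1 n
      _ ≤ ((A₂ + R₁ + T.ncard + 1) * geodesicGrowth S (k * n)) ^ R₁ := by
          apply Nat.pow_le_pow_left
          have h6 : T.ncard ≤ T.ncard * geodesicGrowth S (k * n) := Nat.le_mul_of_pos_right _ (hS1 _)
          calc geodesicGrowth S (k * n) + T.ncard
              ≤ geodesicGrowth S (k * n) + T.ncard * geodesicGrowth S (k * n) := by omega
            _ = (T.ncard + 1) * geodesicGrowth S (k * n) := by ring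
            _ ≤ _ := Nat.mul_le_mul_right _ (by omega)
      _ ≤ _ := Nat.pow_le_pow_right h5 (by omega)
  · have h5 : 1 ≤ (A₂ + R₁ + T.ncard + 1) * geodesicGrowth T n := Nat.mul_pos (by omega) (hT1 n)
    calc geodesicGrowth S (k * n) ≤ _ := h2 n
      _ ≤ ((A₂ + R₁ + T.ncard + 1) * geodesicGrowth T n) ^ A₂ :=
          Nat.pow_le_pow_left (Nat.mul_le_mul_right _ (by omega)) _
      _ ≤ _ := Nat.pow_le_pow_right h5 (by omega)

/-! ### growth types -/

/-- bounded by a polynomial -/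
def PolyBounded (f : ℕ → ℕ) : Prop := ∃ C d : ℕ, ∀ n, f n ≤ C * (n + 1) ^ d

/-- intermediate growth: not bounded by a polynomial, and `f(n)^(1/n)` tends to `1` -/
def IntermediateGrowth (f : ℕ → ℕ) : Prop :=
  ¬ PolyBounded f ∧ Tendsto (fun n : ℕ => (f n : ℝ) ^ (1 / (n : ℝ))) atTop (𝓝 1)

/-- `f` is dominated by `g` -/
def Dom (f g : ℕ → ℕ) : Prop := ∃ A : ℕ, 0 < A ∧ ∀ n, f n ≤ (A * g (A * n)) ^ A

theorem Dom.poly {f g : ℕ → ℕ} (h : Dom f g) (hg : PolyBounded g) : PolyBounded f := by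
  obtain ⟨A, hA, h1⟩ := h
  obtain ⟨C, d, h2⟩ := hg
  refine ⟨(A * C * (A + 1) ^ d) ^ A, d * A, fun n => ?_⟩
  have h3 : A * n + 1 ≤ (A + 1) * (n + 1) := by nlinarith
  calc f n ≤ _ := h1 n
    _ ≤ (A * (C * ((A + 1) * (n + 1)) ^ d)) ^ A := by
        apply Nat.pow_le_pow_left
        apply Nat.mul_le_mul_left
        exact (h2 _).trans (Nat.mul_le_mul_left _ (Nat.pow_le_pow_left h3 _))
    _ = _ := by
        rw [mul_pow (A + 1) (n + 1) d, pow_mul (n + 1) d A,
          ← mul_pow (A * C * (A + 1) ^ d) ((n + 1) ^ d) A]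
        simp only [mul_assoc]

theorem Dom.root {f g : ℕ → ℕ} (h : Dom f g) (hf : ∀ n, 1 ≤ f n) (hg1 : ∀ n, 1 ≤ g n)
    (hg : Tendsto (fun n : ℕ => (g n : ℝ) ^ (1 / (n : ℝ))) atTop (𝓝 1)) :
    Tendsto (fun n : ℕ => (f n : ℝ) ^ (1 / (n : ℝ))) atTop (𝓝 1) := by
  obtain ⟨A, hA, h1⟩ := h
  rw [root_tendsto_iff g hg1] at hg
  rw [root_tendsto_iff f hf]
  have hA' : (0 : ℝ) < A := by exact_mod_cast hA
  have h2 : Tendsto (fun n : ℕ => Real.log (g (A * n)) / ((A * n : ℕ) : ℝ)) atTop (𝓝 0) :=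
    hg.comp (Filter.tendsto_atTop_mono (fun n => Nat.le_mul_of_pos_left n hA) tendsto_id)
  have h3 : Tendsto (fun n : ℕ => (A * Real.log A) / (n : ℝ)) atTop (𝓝 0) :=
    tendsto_const_div_atTop_nhds_zero_nat _
  have h4 := h3.add (h2.const_mul ((A : ℝ) ^ 2))
  rw [mul_zero, add_zero] at h4
  refine squeeze_zero (fun n => ?_) (fun n => ?_) h4
  · exact div_nonneg (Real.log_nonneg (by exact_mod_cast hf n)) (Nat.cast_nonneg _)
  · rcases Nat.eq_zero_or_pos n with rfl | hn
    · simp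
    · have hn' : (0 : ℝ) < n := by exact_mod_cast hn
      have hgp : (0 : ℝ) < g (A * n) := by exact_mod_cast hg1 _
      have h5 : Real.log (f n) ≤ A * (Real.log A + Real.log (g (A * n))) := by
        have h6 : (f n : ℝ) ≤ ((A : ℝ) * g (A * n)) ^ A := by exact_mod_cast h1 n
        have h7 := Real.log_le_log (by exact_mod_cast hf n) h6
        rwa [Real.log_pow, Real.log_mul hA'.ne' hgp.ne'] at h7
      rw [Nat.cast_mul]
      calc Real.log (f n) / n ≤ A * (Real.log A + Real.log (g (A * n))) / n :=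
            div_le_div_of_nonneg_right h5 hn'.le
        _ = _ := by field_simp

theorem dom_iff {f g : ℕ → ℕ} (h1 : Dom f g) (h2 : Dom g f) (hf : ∀ n, 1 ≤ f n)
    (hg : ∀ n, 1 ≤ g n) : IntermediateGrowth f ↔ IntermediateGrowth g :=
  ⟨fun h => ⟨fun h3 => h.1 (h1.poly h3), h2.root hg hf h.2⟩,
    fun h => ⟨fun h3 => h.1 (h2.poly h3), h1.root hf hg h.2⟩⟩

theorem volumeGrowth_mono (hS : S.Finite) {m n : ℕ} (hmn : m ≤ n) :
    volumeGrowth S m ≤ volumeGrowth S n := by
  rw [volumeGrowth, volumeGrowth]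
  refine Set.ncard_le_ncard ?_ (ball_finite hS n)
  rintro g ⟨l, h1, h2, h3⟩
  exact ⟨l, h1, h2.trans hmn, h3⟩

theorem dom_of_le {f g : ℕ → ℕ} {C : ℕ} (hg : ∀ n, 1 ≤ g n) (hm : Monotone g)
    (h : ∀ n, f n ≤ g (C * n)) : Dom f g := by
  refine ⟨C + 1, by omega, fun n => ?_⟩
  have h1 : g (C * n) ≤ g ((C + 1) * n) := hm (Nat.mul_le_mul_right _ (by omega))
  have h2 : 1 ≤ (C + 1) * g ((C + 1) * n) := Nat.mul_pos (by omega) (hg _)
  calc f n ≤ _ := h n
    _ ≤ _ := h1
    _ ≤ (C + 1) * g ((C + 1) * n) := Nat.le_mul_of_pos_left _ (by omega)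
    _ = ((C + 1) * g ((C + 1) * n)) ^ 1 := (pow_one _).symm
    _ ≤ _ := Nat.pow_le_pow_right h2 (by omega)

theorem dom_S (h : Between S T k) (hS : S.Finite) (hk : 0 < k) :
    Dom (geodesicGrowth S) (geodesicGrowth T) := by
  have hTf := h.finite hS
  obtain ⟨A, hA, h1⟩ := main h hS hk
  refine ⟨A, hA, fun n => ?_⟩
  calc geodesicGrowth S n ≤ geodesicGrowth S (k * n) :=
        geodesicGrowth_mono hS (Nat.le_mul_of_pos_left n hk)
    _ ≤ _ := (h1 n).2
    _ ≤ _ := Nat.pow_le_pow_left (Nat.mul_le_mul_left _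
        (geodesicGrowth_mono hTf (Nat.le_mul_of_pos_left n hA))) _

theorem dom_T (h : Between S T k) (hS : S.Finite) (hk : 0 < k) :
    Dom (geodesicGrowth T) (geodesicGrowth S) := by
  have hS1 : ∀ n, 1 ≤ geodesicGrowth S n := one_le_geodesicGrowth hS
  obtain ⟨A, hA, h1⟩ := main h hS hk
  refine ⟨A + k, by omega, fun n => ?_⟩
  have h3 : 1 ≤ (A + k) * geodesicGrowth S ((A + k) * n) := Nat.mul_pos (by omega) (hS1 _)
  calc geodesicGrowth T n ≤ _ := (h1 n).1
    _ ≤ ((A + k) * geodesicGrowth S ((A + k) * n)) ^ A := by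
        apply Nat.pow_le_pow_left
        apply Nat.mul_le_mul (by omega)
        exact geodesicGrowth_mono hS (Nat.mul_le_mul_right _ (by omega))
    _ ≤ _ := Nat.pow_le_pow_right h3 (by omega)

/-- `S` has intermediate geodesic growth if and only if `T` has. -/
theorem intermediate_iff (h : Between S T k) (hS : S.Finite) (hk : 0 < k) :
    IntermediateGrowth (geodesicGrowth S) ↔ IntermediateGrowth (geodesicGrowth T) :=
  dom_iff (dom_S h hS hk) (dom_T h hS hk) (one_le_geodesicGrowth hS)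
    (one_le_geodesicGrowth (h.finite hS))

/-- `S` has intermediate volume growth if and only if `T` has. -/
theorem volume_iff (h : Between S T k) (hS : S.Finite) :
    IntermediateGrowth (volumeGrowth S) ↔ IntermediateGrowth (volumeGrowth T) := by
  have hTf := h.finite hS
  obtain ⟨C, hC⟩ := h.exists_bound hS
  refine dom_iff (dom_of_le (C := C) (one_le_volumeGrowth hTf)
      (fun m n hmn => volumeGrowth_mono hTf hmn) (fun n => ?_))
    (dom_of_le (C := k) (one_le_volumeGrowth hS)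
      (fun m n hmn => volumeGrowth_mono hS hmn) (fun n => ?_))
    (one_le_volumeGrowth hS) (one_le_volumeGrowth hTf)
  · rw [volumeGrowth, volumeGrowth]
    refine Set.ncard_le_ncard ?_ (ball_finite hTf _)
    rintro g ⟨l, h1, h2, rfl⟩
    obtain ⟨τ, h3, h4, h5⟩ := hC l h1
    exact ⟨τ, h3, h4.trans (Nat.mul_le_mul_left _ h2), h5⟩
  · rw [volumeGrowth, volumeGrowth]
    refine Set.ncard_le_ncard ?_ (ball_finite hS _)
    rintro g ⟨τ, h1, h2, rfl⟩
    obtain ⟨l, h3, h4, h5⟩ := h.toS τ h1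
    exact ⟨l, h3, h4.trans (Nat.mul_le_mul_left _ h2), h5⟩

/-- exponential growth -/
def ExpoGrowth (f : ℕ → ℕ) : Prop := ∃ K : ℕ, 0 < K ∧ ∀ n, 2 ^ (n / K) ≤ f n

theorem Dom.expo {f g : ℕ → ℕ} (h : Dom f g) (hg : ∀ n, 1 ≤ g n) (hm : Monotone g)
    (hf : ExpoGrowth f) : ExpoGrowth g := by
  obtain ⟨A, hA, h1⟩ := h
  obtain ⟨K, hK, h2⟩ := hf
  refine ⟨A * (K * (A * A + A)), by positivity, fun n => ?_⟩
  set q := n / (A * (K * (A * A + A))) with hq
  rcases Nat.eq_zero_or_pos q with h0 | h0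
  · rw [h0, pow_zero]
    exact hg n
  have h3 : A * (K * (A * A + A)) * q ≤ n := Nat.mul_div_le n _
  have h4 : K * (A * A + A) * q ≤ n / A := by
    rw [Nat.le_div_iff_mul_le hA]
    calc K * (A * A + A) * q * A = A * (K * (A * A + A)) * q := by ring
      _ ≤ n := h3
  have h5 : (A * A + A) * q ≤ n / A / K := by
    rw [Nat.le_div_iff_mul_le hK]
    calc (A * A + A) * q * K = K * (A * A + A) * q := by ring
      _ ≤ n / A := h4
  have h6 : A * A + A * q ≤ (A * A + A) * q := by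
    have : A * A * 1 ≤ A * A * q := Nat.mul_le_mul_left _ h0
    nlinarith
  have h7 : A * (n / A) ≤ n := Nat.mul_div_le n A
  have h8 : 2 ^ (A * A + A * q) ≤ (2 ^ A * g n) ^ A := by
    calc 2 ^ (A * A + A * q) ≤ 2 ^ (n / A / K) := Nat.pow_le_pow_right (by norm_num) (h6.trans h5)
      _ ≤ f (n / A) := h2 _
      _ ≤ _ := h1 _
      _ ≤ _ := Nat.pow_le_pow_left (Nat.mul_le_mul Nat.lt_two_pow_self.le (hm h7)) _
  rw [mul_pow, ← pow_mul, pow_add] at h8
  have h9 := Nat.le_of_mul_le_mul_left h8 (by positivity)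
  rw [mul_comm A q, pow_mul] at h9
  exact (Nat.pow_le_pow_iff_left hA.ne').1 h9

/-- `S` has exponential geodesic growth if and only if `T` has. -/
theorem exponential_iff (h : Between S T k) (hS : S.Finite) (hk : 0 < k) :
    ExpoGrowth (geodesicGrowth S) ↔ ExpoGrowth (geodesicGrowth T) := by
  have hTf := h.finite hS
  have hS1 : ∀ n, 1 ≤ geodesicGrowth S n := one_le_geodesicGrowth hS
  have hT1 : ∀ n, 1 ≤ geodesicGrowth T n := one_le_geodesicGrowth hTf
  exact ⟨(dom_S h hS hk).expo hT1 (fun m n hmn => geodesicGrowth_mono hTf hmn),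
    (dom_T h hS hk).expo hS1 (fun m n hmn => geodesicGrowth_mono hS hmn)⟩

end Pool.Agent.Helper90.Ball
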