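import Pool.Agent.Helper90.Ball.Basic

/-!
Skeletons: the geodesic growth over `S` is bounded by that over a set between the sphere and the
ball of radius `k`.
-/

namespace Pool.Agent.Helper90.Ball

open Pool.Agent.Helper90.Spinal Pool.Agent.Helper93.Geo Filter Topology

set_option linter.unusedSectionVars false

variable {G : Type*} [Group G] {S T : Set G} {k : ℕ}

/-- concatenation of the first `n` blocks -/
def wd (g : ℕ → List G) (n : ℕ) : List G := ((List.range n).map g).flatten

/-- the values of the first `n` blocks -/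
def sk (g : ℕ → List G) (n : ℕ) : List G := (List.range n).map (fun i => (g i).prod)

/-- blocks shifted by `j` letters -/
def shf (j : ℕ) (g : ℕ → List G) : ℕ → List G := fun i => (g i).drop j ++ (g (i + 1)).take j

theorem wd_zero (g : ℕ → List G) : wd g 0 = [] := rfl

theorem wd_succ (g : ℕ → List G) (n : ℕ) : wd g (n + 1) = wd g n ++ g n := by
  simp [wd, List.range_succ]

theorem sk_succ (g : ℕ → List G) (n : ℕ) : sk g (n + 1) = sk g n ++ [(g n).prod] := by
  simp [sk, List.range_succ]

theorem prod_sk (g : ℕ → List G) (n : ℕ) : (sk g n).prod = (wd g n).prod := by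
  induction n with
  | zero => rfl
  | succ n ih => rw [sk_succ, wd_succ, List.prod_append, List.prod_append, ih,
      List.prod_singleton]

theorem length_sk (g : ℕ → List G) (n : ℕ) : (sk g n).length = n := by simp [sk]

theorem length_wd {g : ℕ → List G} {n : ℕ} (h : ∀ i < n, (g i).length = k) :
    (wd g n).length = k * n := by
  induction n with
  | zero => simp [wd]
  | succ n ih =>
    rw [wd_succ, List.length_append, ih (fun i hi => h i (by omega)), h n (by omega),
      Nat.mul_succ]

theorem mem_wd {g : ℕ → List G} {n : ℕ} (h : ∀ i < n, ∀ s ∈ g i, s ∈ S) :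
    ∀ s ∈ wd g n, s ∈ S := by
  induction n with
  | zero => simp [wd]
  | succ n ih =>
    intro s hs
    rw [wd_succ] at hs
    rcases List.mem_append.1 hs with hs | hs
    · exact ih (fun i hi => h i (by omega)) s hs
    · exact h n (by omega) s hs

theorem block_geo {g : ℕ → List G} {n : ℕ} (h : IsGeodesic S (wd g n)) :
    ∀ i < n, IsGeodesic S (g i) := by
  induction n with
  | zero => intro i hi; omega
  | succ n ih =>
    intro i hi
    rw [wd_succ] at h
    rcases Nat.lt_or_ge i n with h1 | h1
    · refine ih ?_ i h1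
      apply IsGeodesic.mid (u := []) (x := g n)
      simpa using h
    · have : i = n := by omega
      rw [this]
      apply IsGeodesic.mid (u := wd g n) (x := [])
      simpa using h

theorem sk_geo (h : Between S T k) (hk : 0 < k) {g : ℕ → List G} {n : ℕ}
    (hg : ∀ i < n, (g i).length = k) (hw : IsGeodesic S (wd g n)) : IsGeodesic T (sk g n) := by
  refine ⟨?_, ?_⟩
  · intro t ht
    simp only [sk, List.mem_map, List.mem_range] at ht
    obtain ⟨i, hi, rfl⟩ := ht
    exact h.sphere _ (block_geo hw i hi) (hg i hi)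
  · intro τ hτ he
    obtain ⟨l, h1, h2, h3⟩ := h.toS τ hτ
    have h4 := hw.2 l h1 (by rw [h3, he, prod_sk])
    rw [length_wd hg] at h4
    rw [length_sk]
    exact Nat.le_of_mul_le_mul_left (h4.trans h2) hk

theorem wd_shf (g : ℕ → List G) (j : ℕ) : ∀ n, wd g (n + 1)
    = (g 0).take j ++ wd (shf j g) n ++ (g n).drop j := by
  intro n
  induction n with
  | zero => rw [wd_succ, wd_zero, wd_zero]; simp
  | succ n ih =>
    rw [wd_succ, ih, wd_succ]
    conv_lhs => rw [← List.take_append_drop j (g (n + 1))]
    simp only [shf, List.append_assoc]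

theorem shf_length {j : ℕ} (hj : j ≤ k) {g : ℕ → List G} {n : ℕ}
    (h : ∀ i < n + 1, (g i).length = k) : ∀ i < n, (shf j g i).length = k := by
  intro i hi
  have h1 := h i (by omega)
  have h2 := h (i + 1) (by omega)
  simp only [shf, List.length_append, List.length_drop, List.length_take, h1, h2]
  omega

theorem shf_geo (h : Between S T k) (hk : 0 < k) {j : ℕ} (hj : j ≤ k) {g : ℕ → List G} {n : ℕ}
    (hg : ∀ i < n + 1, (g i).length = k) (hw : IsGeodesic S (wd g (n + 1))) :
    IsGeodesic T (sk (shf j g) n) := by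
  apply sk_geo h hk (shf_length hj hg)
  rw [wd_shf g j n] at hw
  exact IsGeodesic.mid hw

theorem shf_inj {j : ℕ} {g g' : ℕ → List G} {n : ℕ}
    (h1 : ∀ i < n + 1, (g i).prod = (g' i).prod)
    (h2 : ((g 0).take j).prod = ((g' 0).take j).prod)
    (h3 : sk (shf j g) n = sk (shf j g') n) :
    ∀ i < n + 1, ((g i).take j).prod = ((g' i).take j).prod := by
  have h4 : ∀ i < n, (shf j g i).prod = (shf j g' i).prod := by
    intro i hi
    have := (List.map_inj_left.1 h3) i (List.mem_range.2 hi)
    exact this
  intro i
  induction i with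
  | zero => intro _; exact h2
  | succ i ih =>
    intro hi
    have h5 := ih (by omega)
    have h6 := h4 i (by omega)
    have h7 := h1 i (by omega)
    rw [← List.take_append_drop j (g i), ← List.take_append_drop j (g' i), List.prod_append,
      List.prod_append, h5] at h7
    have h8 := mul_left_cancel h7
    simp only [shf, List.prod_append] at h6
    rw [h8] at h6
    exact mul_left_cancel h6

theorem exists_time (u v : List G) (hl : u.length = v.length) (hne : u ≠ v) :
    ∃ j ≤ u.length, (u.take j).prod ≠ (v.take j).prod := by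
  by_contra hcon
  push Not at hcon
  apply hne
  apply List.ext_getElem hl
  intro i h1 h2
  have h3 := hcon i (by omega)
  have h4 := hcon (i + 1) (by omega)
  rw [List.prod_take_succ _ _ h1, List.prod_take_succ _ _ h2, h3] at h4
  exact mul_left_cancel h4

/-! ### counting -/

section Count

variable {W : Finset (List G)}

/-- extension of a family of blocks -/
def ex {n : ℕ} (f : Fin n → W) : ℕ → List G :=
  fun i => if h : i < n then (f ⟨i, h⟩ : List G) else []

theorem ex_of_lt {n : ℕ} (f : Fin n → W) {i : ℕ} (h : i < n) : ex f i = (f ⟨i, h⟩ : List G) := by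
  simp [ex, h]

theorem ex_fin {n : ℕ} (f : Fin n → W) (i : Fin n) : ex f i = (f i : List G) := by
  rw [ex_of_lt f i.2]

theorem exists_blocks (hW : ∀ l : List G, l ∈ W ↔ (∀ s ∈ l, s ∈ S) ∧ l.length = k) (n : ℕ)
    (w : List G) (hw : ∀ s ∈ w, s ∈ S) (hl : w.length = k * n) :
    ∃ f : Fin n → W, wd (ex f) n = w := by
  have hmem : ∀ i : Fin n, (w.drop (k * i)).take k ∈ W := by
    intro i
    rw [hW]
    refine ⟨fun s hs => hw s (List.mem_of_mem_drop (List.mem_of_mem_take hs)), ?_⟩
    rw [List.length_take, List.length_drop, hl]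
    have h1 : k * (i : ℕ) + k ≤ k * n := by
      rw [← Nat.mul_succ]
      exact Nat.mul_le_mul_left _ i.2
    omega
  refine ⟨fun i => ⟨_, hmem i⟩, ?_⟩
  have key : ∀ m ≤ n, wd (ex (fun i : Fin n => (⟨_, hmem i⟩ : W))) m = w.take (k * m) := by
    intro m
    induction m with
    | zero => intro _; simp [wd]
    | succ m ih =>
      intro hm
      rw [wd_succ, ih (by omega), ex_of_lt _ (by omega : m < n), Nat.mul_succ, List.take_add]
  rw [key n le_rfl, ← hl, List.take_length]

variable [DecidableEq (List G)]

open Classical in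
theorem fiber_card (h : Between S T k) (hS : S.Finite) (hk : 0 < k)
    (hW : ∀ l : List G, l ∈ W ↔ (∀ s ∈ l, s ∈ S) ∧ l.length = k) (n : ℕ) (f0 : Fin n → W)
    (hf0 : IsGeodesic S (wd (ex f0) n)) :
    (Finset.univ.filter (fun f : Fin n → W =>
      IsGeodesic S (wd (ex f) n) ∧ sk (ex f) n = sk (ex f0) n)).card
      ≤ (2 * geodesicGrowth T n) ^ ((W.card + 1) * (k + 1)) := by
  have hTf := h.finite hS
  set γ := geodesicGrowth T n with hγ
  have hγ1 : 1 ≤ γ := one_le_geodesicGrowth hTf n
  set F := Finset.univ.filter (fun f : Fin n → W =>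
      IsGeodesic S (wd (ex f) n) ∧ sk (ex f) n = sk (ex f0) n) with hF
  have hFm : ∀ f, f ∈ F ↔ IsGeodesic S (wd (ex f) n) ∧ sk (ex f) n = sk (ex f0) n := by
    intro f; simp [hF]
  set I : Finset (Fin n) := Finset.univ.filter (fun i => ∃ f ∈ F, f i ≠ f0 i) with hI
  have hIm : ∀ i, i ∈ I ↔ ∃ f ∈ F, f i ≠ f0 i := by intro i; simp [hI]
  -- the words of the fibre are determined by their blocks at `I`
  have s1 : F.card ≤ W.card ^ I.card := by
    have e1 : (Finset.univ : Finset (I → W)).card = W.card ^ I.card := by
      simp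
    rw [← e1]
    refine Finset.card_le_card_of_injOn (fun f => fun i : I => f i.1) (fun _ _ => by simp) ?_
    intro f hf f' hf' he
    funext i
    by_cases hi : i ∈ I
    · exact congrFun he ⟨i, hi⟩
    · rw [hIm] at hi
      push Not at hi
      rw [hi f hf, hi f' hf']
  -- second fillings
  have hv : ∀ i : Fin n, ∃ v : W, i ∈ I → v ≠ f0 i ∧
      (v : List G).prod = (f0 i : List G).prod := by
    intro i
    by_cases hi : i ∈ I
    · obtain ⟨f, hf, hne⟩ := (hIm i).1 hi
      refine ⟨f i, fun _ => ⟨hne, ?_⟩⟩
      have h1 := ((hFm f).1 hf).2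
      have h2 := (List.map_inj_left.1 h1) i (List.mem_range.2 i.2)
      simp only [ex_fin] at h2
      exact h2
    · exact ⟨f0 i, fun hi' => absurd hi' hi⟩
  choose v hv using hv
  have hj : ∀ i : Fin n, ∃ j : ℕ, i ∈ I → j ≤ k ∧
      ((v i : List G).take j).prod ≠ ((f0 i : List G).take j).prod := by
    intro i
    by_cases hi : i ∈ I
    · have h1 := ((hW _).1 (v i).2).2
      have h2 := ((hW _).1 (f0 i).2).2
      obtain ⟨j, hj1, hj2⟩ := exists_time (v i : List G) (f0 i : List G) (h1.trans h2.symm)
        (fun he => (hv i hi).1 (Subtype.ext he))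
      exact ⟨j, fun _ => ⟨by omega, hj2⟩⟩
    · exact ⟨0, fun hi' => absurd hi' hi⟩
  choose jj hjj using hj
  -- many fillings with a difference at the same time give many shifted skeletons
  have s2 : ∀ j ≤ k, 2 ^ (I.filter (fun i => jj i = j)).card ≤ 2 * γ := by
    intro j hjk
    set J := I.filter (fun i => jj i = j) with hJ
    rcases Nat.eq_zero_or_pos n with hn | hn
    · have : J.card = 0 := by
        rw [Finset.card_eq_zero, Finset.eq_empty_iff_forall_notMem]
        intro i
        exact absurd i.2 (by omega)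
      rw [this]
      omega
    obtain ⟨m, rfl⟩ : ∃ m, n = m + 1 := ⟨n - 1, by omega⟩
    set J' := J.erase 0 with hJ'
    have hJc : J.card ≤ J'.card + 1 := by
      have := Finset.pred_card_le_card_erase (s := J) (a := (0 : Fin (m + 1)))
      rw [← hJ'] at this
      omega
    set fE : Finset (Fin (m + 1)) → Fin (m + 1) → W :=
      fun E i => if i ∈ E then v i else f0 i with hfE
    have hlen : ∀ E, ∀ i < m + 1, (ex (fE E) i).length = k := by
      intro E i hi
      rw [ex_of_lt _ hi]
      exact ((hW _).1 (fE E ⟨i, hi⟩).2).2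
    have hprod : ∀ E ⊆ I, ∀ i < m + 1, (ex (fE E) i).prod = (ex f0 i).prod := by
      intro E hE i hi
      rw [ex_of_lt _ hi, ex_of_lt _ hi]
      by_cases hi' : (⟨i, hi⟩ : Fin (m + 1)) ∈ E
      · simp only [hfE, hi', if_true]
        exact (hv _ (hE hi')).2
      · simp only [hfE, hi', if_false]
    have hgeo : ∀ E ⊆ I, IsGeodesic S (wd (ex (fE E)) (m + 1)) := by
      intro E hE
      apply IsGeodesic.of_prod_length hf0
      · apply mem_wd
        intro i hi
        rw [ex_of_lt _ hi]
        exact ((hW _).1 (fE E ⟨i, hi⟩).2).1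
      · rw [← prod_sk, ← prod_sk]
        congr 1
        exact List.map_congr_left fun i hi => hprod E hE i (List.mem_range.1 hi)
      · rw [length_wd (hlen E), length_wd (k := k)]
        intro i hi
        rw [ex_of_lt _ hi]
        exact ((hW _).1 (f0 ⟨i, hi⟩).2).2
    have hJI : J' ⊆ I := (Finset.erase_subset _ _).trans (Finset.filter_subset _ _)
    have s3 : 2 ^ J'.card ≤ γ := by
      rw [← Finset.card_powerset, ← Set.ncard_coe_finset]
      rw [hγ, geodesicGrowth]
      refine Set.ncard_le_ncard_of_injOn (fun E => sk (shf j (ex (fE E))) m) ?_ ?_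
        (geo_finite hTf _)
      · intro E hE
        have hE' : E ⊆ I := (Finset.mem_powerset.1 hE).trans hJI
        refine ⟨shf_geo h hk hjk (hlen E) (hgeo E hE'), ?_⟩
        rw [length_sk]
        omega
      · intro E hE E' hE' he
        have hE1 : E ⊆ J' := Finset.mem_powerset.1 hE
        have hE2 : E' ⊆ J' := Finset.mem_powerset.1 hE'
        have h0 : ∀ E ⊆ J', ex (fE E) 0 = (f0 0 : List G) := by
          intro E hE
          have h1 : (0 : Fin (m + 1)) ∉ E := fun h2 => by
            have := hE h2
            simp [hJ'] at this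
          have h2 := ex_fin (fE E) 0
          simp only [hfE, h1, if_false] at h2
          exact h2
        have h1 := shf_inj (j := j) (n := m)
          (fun i hi => (hprod E (hE1.trans hJI) i hi).trans
            (hprod E' (hE2.trans hJI) i hi).symm) (by rw [h0 E hE1, h0 E' hE2]) he
        ext i
        have h2 := h1 i i.2
        rw [ex_fin, ex_fin] at h2
        simp only [hfE] at h2
        have hjd : ∀ i ∈ J', ((v i : List G).take j).prod ≠ ((f0 i : List G).take j).prod := by
          intro i hi
          have h3 : i ∈ J := Finset.mem_of_mem_erase hi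
          rw [hJ, Finset.mem_filter] at h3
          have h4 := (hjj i h3.1).2
          rwa [h3.2] at h4
        constructor
        · intro hi
          by_contra hi'
          simp only [hi, hi', if_true, if_false] at h2
          exact hjd i (hE1 hi) h2
        · intro hi
          by_contra hi'
          simp only [hi, hi', if_true, if_false] at h2
          exact hjd i (hE2 hi) h2.symm
    calc 2 ^ J.card ≤ 2 ^ (J'.card + 1) := Nat.pow_le_pow_right (by norm_num) hJc
      _ = 2 * 2 ^ J'.card := by rw [pow_succ]; ring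
      _ ≤ 2 * γ := Nat.mul_le_mul_left _ s3
  -- the number of positions
  have s4 : I.card ≤ Nat.log 2 (2 * γ) * (k + 1) := by
    have := Finset.card_le_mul_card_image_of_maps_to (s := I) (t := Finset.range (k + 1))
      (f := jj) (fun i hi => Finset.mem_range.2 (by have := (hjj i hi).1; omega))
      (Nat.log 2 (2 * γ)) (fun j hj => Nat.le_log_of_pow_le (by norm_num)
        (s2 j (by rw [Finset.mem_range] at hj; omega)))
    rwa [Finset.card_range] at this
  calc F.card ≤ W.card ^ I.card := s1
    _ ≤ (2 ^ (W.card + 1)) ^ I.card := by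
        apply Nat.pow_le_pow_left
        exact (Nat.lt_two_pow_self).le.trans (Nat.pow_le_pow_right (by norm_num) (by omega))
    _ ≤ (2 ^ (W.card + 1)) ^ (Nat.log 2 (2 * γ) * (k + 1)) :=
        Nat.pow_le_pow_right (by positivity) s4
    _ = (2 ^ Nat.log 2 (2 * γ)) ^ ((W.card + 1) * (k + 1)) := by
        rw [← pow_mul, ← pow_mul]
        congr 1
        ring
    _ ≤ (2 * γ) ^ ((W.card + 1) * (k + 1)) :=
        Nat.pow_le_pow_left (Nat.pow_log_le_self 2 (by omega)) _

open Classical in
theorem blocks_card (h : Between S T k) (hS : S.Finite) (hk : 0 < k)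
    (hW : ∀ l : List G, l ∈ W ↔ (∀ s ∈ l, s ∈ S) ∧ l.length = k) (n : ℕ) :
    (Finset.univ.filter (fun f : Fin n → W => IsGeodesic S (wd (ex f) n))).card
      ≤ (2 * geodesicGrowth T n) ^ ((W.card + 1) * (k + 1)) * geodesicGrowth T n := by
  have hTf := h.finite hS
  set A := Finset.univ.filter (fun f : Fin n → W => IsGeodesic S (wd (ex f) n)) with hA
  have hAm : ∀ f, f ∈ A ↔ IsGeodesic S (wd (ex f) n) := by intro f; simp [hA]
  have h1 : A.card ≤ (2 * geodesicGrowth T n) ^ ((W.card + 1) * (k + 1)) *
      (A.image (fun f => sk (ex f) n)).card := by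
    apply Finset.card_le_mul_card_image
    intro τ hτ
    obtain ⟨f0, hf0, rfl⟩ := Finset.mem_image.1 hτ
    refine le_trans (Finset.card_le_card ?_) (fiber_card h hS hk hW n f0 ((hAm f0).1 hf0))
    intro f hf
    rw [Finset.mem_filter] at hf
    rw [Finset.mem_filter]
    exact ⟨Finset.mem_univ _, (hAm f).1 hf.1, hf.2⟩
  refine h1.trans (Nat.mul_le_mul_left _ ?_)
  rw [← Set.ncard_coe_finset, geodesicGrowth]
  refine Set.ncard_le_ncard ?_ (geo_finite hTf n)
  intro τ hτ
  simp only [Finset.coe_image, Set.mem_image, Finset.mem_coe] at hτ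
  obtain ⟨f, hf, rfl⟩ := hτ
  refine ⟨sk_geo h hk ?_ ((hAm f).1 hf), (length_sk _ _).le⟩
  intro i hi
  rw [ex_of_lt _ hi]
  exact ((hW _).1 (f ⟨i, hi⟩).2).2

end Count

open Classical in
/-- the geodesic growth over `S` is bounded by that over `T` -/
theorem growth_S_le (h : Between S T k) (hS : S.Finite) (hk : 0 < k) :
    ∃ C R : ℕ, ∀ n, geodesicGrowth S (k * n) ≤
      (n + 1) * (C * (2 * geodesicGrowth T n) ^ R) := by
  set W : Finset (List G) := (wordsOf_finite hS k).toFinset with hWd
  have hW : ∀ l : List G, l ∈ W ↔ (∀ s ∈ l, s ∈ S) ∧ l.length = k := by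
    intro l
    rw [hWd, Set.Finite.mem_toFinset]
    rfl
  set V : Finset (List G) := (finite_words hS k).toFinset with hVd
  have hTf := h.finite hS
  refine ⟨V.card, (W.card + 1) * (k + 1) + 1, fun m => ?_⟩
  set γ := geodesicGrowth T m with hγ
  set P : ℕ → Finset (List G) := fun q => Finset.image₂ (fun (f : Fin q → W) r => wd (ex f) q ++ r)
    (Finset.univ.filter (fun f : Fin q → W => IsGeodesic S (wd (ex f) q))) V with hP
  have h1 : ∀ q ∈ Finset.range (m + 1), (P q).card ≤
      V.card * (2 * γ) ^ ((W.card + 1) * (k + 1) + 1) := by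
    intro q hq
    have hqm : q ≤ m := by rw [Finset.mem_range] at hq; omega
    have hm := geodesicGrowth_mono hTf hqm
    calc (P q).card ≤ _ := Finset.card_image₂_le _ _ _
      _ ≤ ((2 * geodesicGrowth T q) ^ ((W.card + 1) * (k + 1)) * geodesicGrowth T q) * V.card :=
          Nat.mul_le_mul_right _ (blocks_card h hS hk hW q)
      _ ≤ ((2 * γ) ^ ((W.card + 1) * (k + 1)) * (2 * γ)) * V.card := by
          apply Nat.mul_le_mul_right
          apply Nat.mul_le_mul
          · exact Nat.pow_le_pow_left (by omega) _
          · omega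
      _ = _ := by rw [pow_succ]; ring
  have h2 : {l : List G | IsGeodesic S l ∧ l.length ≤ k * m} ⊆
      (((Finset.range (m + 1)).biUnion P : Finset (List G)) : Set (List G)) := by
    rintro w ⟨hw, hl⟩
    have hdm := Nat.div_add_mod w.length k
    have hmod := Nat.mod_lt w.length hk
    have hq : w.length / k ≤ m := Nat.div_le_of_le_mul hl
    have hg1 : IsGeodesic S (w.take (k * (w.length / k))) := by
      apply IsGeodesic.mid (u := []) (x := w.drop (k * (w.length / k)))
      rw [List.nil_append, List.take_append_drop]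
      exact hw
    obtain ⟨f, hf⟩ := exists_blocks hW (w.length / k) (w.take (k * (w.length / k)))
      hg1.1 (by rw [List.length_take]; omega)
    simp only [Finset.coe_biUnion, Finset.coe_range, Set.mem_Iio, Set.mem_iUnion, Finset.mem_coe]
    refine ⟨w.length / k, by omega, ?_⟩
    simp only [hP, Finset.mem_image₂, Finset.mem_filter, Finset.mem_univ, true_and]
    refine ⟨f, by rw [hf]; exact hg1, w.drop (k * (w.length / k)), ?_, ?_⟩
    · rw [hVd, Set.Finite.mem_toFinset]
      refine ⟨fun s hs => hw.1 s (List.mem_of_mem_drop hs), ?_⟩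
      rw [List.length_drop]
      omega
    · rw [hf, List.take_append_drop]
  calc geodesicGrowth S (k * m) ≤ _ := Set.ncard_le_ncard h2 (Finset.finite_toSet _)
    _ = ((Finset.range (m + 1)).biUnion P).card := Set.ncard_coe_finset _
    _ ≤ (Finset.range (m + 1)).card * _ := Finset.card_biUnion_le_card_mul _ _ _ h1
    _ = _ := by rw [Finset.card_range]

end Pool.Agent.Helper90.Ball
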